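import Pool.Agent.W425.MM.Defs

/-! Project MM, part B1: nondegeneracy over other fields. -/

set_option autoImplicit false

namespace Pool.Agent.W67.MM

open Pool.Agent.W425.MM

/-- specialisation of a point of the torus over an extension field to a complex point -/
theorem special (k : Type) [Field k] [Algebra k ℂ] (K : Type) [Field K] [Algebra k K]
    {N : ℕ} (z : Fin N → K) (hz : ∀ i, z i ≠ 0) :
    ∃ w : Fin N → ℂ, (∀ i, w i ≠ 0) ∧ ∀ (r : ℕ) (S : Fin r → Prop) [DecidablePred S]
      (v : Fin r → Fin N → ℕ) (d : Fin r → k),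
      (∑ j, if S j then algebraMap k K (d j) * ∏ i, z i ^ v j i else 0) = 0 →
      (∑ j, if S j then algebraMap k ℂ (d j) * ∏ i, w i ^ v j i else 0) = 0 := by
  classical
  set T : Set K := Set.range z ∪ Set.range (fun i => (z i)⁻¹) with hT
  set A : Subalgebra k K := Algebra.adjoin k T with hA
  have hfg : A.FG := by
    rw [Subalgebra.fg_def]
    exact ⟨T, (Set.finite_range _).union (Set.finite_range _), rfl⟩
  have hft : Algebra.FiniteType k A := (Subalgebra.fg_iff_finiteType A).1 hfg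
  obtain ⟨m, hm⟩ := Ideal.exists_maximal A
  let _ : Field (A ⧸ m) := Ideal.Quotient.field m
  have hft2 : Algebra.FiniteType k (A ⧸ m) :=
    Algebra.FiniteType.of_surjective (Ideal.Quotient.mkₐ k m) (Ideal.Quotient.mkₐ_surjective k m)
  have hfin : Module.Finite k (A ⧸ m) := finite_of_finite_type_of_isJacobsonRing k (A ⧸ m)
  have halg : Algebra.IsAlgebraic k (A ⧸ m) := Algebra.IsAlgebraic.of_finite k (A ⧸ m)
  let ψ : (A ⧸ m) →ₐ[k] ℂ := IsAlgClosed.lift
  let φ : A →ₐ[k] ℂ := ψ.comp (Ideal.Quotient.mkₐ k m)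
  have hmem : ∀ i, z i ∈ A := fun i => Algebra.subset_adjoin (Or.inl ⟨i, rfl⟩)
  have hmem' : ∀ i, (z i)⁻¹ ∈ A := fun i => Algebra.subset_adjoin (Or.inr ⟨i, rfl⟩)
  let ζ : Fin N → A := fun i => ⟨z i, hmem i⟩
  let ζ' : Fin N → A := fun i => ⟨(z i)⁻¹, hmem' i⟩
  refine ⟨fun i => φ (ζ i), ?_, ?_⟩
  · intro i h0
    have h0' : φ (ζ i) = 0 := h0
    have h1 : ζ i * ζ' i = 1 := by
      apply Subtype.ext
      exact mul_inv_cancel₀ (hz i)
    have h2 : φ (ζ i) * φ (ζ' i) = 1 := by rw [← map_mul, h1, map_one]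
    rw [h0', zero_mul] at h2
    exact zero_ne_one h2
  · intro r S _ v d h
    set P : A := ∑ j, if S j then algebraMap k A (d j) * ∏ i, ζ i ^ v j i else 0 with hP
    have hP0 : P = 0 := by
      apply Subtype.ext
      have h1 : (P : K) = A.val P := rfl
      rw [h1, hP, map_sum]
      refine Eq.trans (Finset.sum_congr rfl fun j _ => ?_) h
      split_ifs
      · rw [map_mul, map_prod]
        congr 1
      · rw [map_zero]
    have h2 : φ P = 0 := by rw [hP0, map_zero]
    rw [hP, map_sum] at h2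
    refine Eq.trans (Finset.sum_congr rfl fun j _ => ?_) h2
    split_ifs
    · rw [map_mul, map_prod, AlgHom.commutes]
      simp only [map_pow]
    · rw [map_zero]

theorem face_iff {r N : ℕ} (hr : 0 < r) (v : Fin r → Fin N → ℕ) (u : Fin N → ℕ) (j : Fin r) :
    Pool.Agent.W425.ND.onFace v (fun i => (u i : ℝ)) j ↔ Pool.Agent.W426.SM.face v u j := by
  unfold Pool.Agent.W425.ND.onFace Pool.Agent.W426.SM.face Pool.Agent.W426.SM.gord
  have hne : Nonempty (Fin r) := ⟨⟨0, hr⟩⟩
  constructor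
  · intro h
    refine le_antisymm (le_ciInf fun j' => ?_) (ciInf_le' _ j)
    have h1 : ∑ i, (u i : ℝ) * (v j i : ℝ) ≤ ∑ i, (u i : ℝ) * (v j' i : ℝ) := h j'
    exact_mod_cast h1
  · intro h j'
    have h1 : ∑ i, u i * v j i ≤ ∑ i, u i * v j' i := by
      rw [h]
      exact ciInf_le' _ j'
    show ∑ i, (u i : ℝ) * (v j i : ℝ) ≤ ∑ i, (u i : ℝ) * (v j' i : ℝ)
    exact_mod_cast h1

theorem taskB1 : TaskB1 := by
  intro k _ _ K _ _ r N v c hr hnd u z hz h0
  by_contra hcon
  push Not at hcon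
  obtain ⟨w, hw0, hw⟩ := special k K z hz
  apply hnd (fun i => (u i : ℝ)) w hw0
  classical
  constructor
  · have h1 := hw r (fun j => Pool.Agent.W426.SM.face v u j) v c h0
    refine Eq.trans (Finset.sum_congr rfl fun j _ => ?_) h1
    by_cases hj : Pool.Agent.W426.SM.face v u j
    · rw [if_pos hj, if_pos ((face_iff hr v u j).2 hj)]
    · rw [if_neg hj, if_neg (fun h => hj ((face_iff hr v u j).1 h))]
  · intro i
    have h1 := hw r (fun j => Pool.Agent.W426.SM.face v u j) v (fun j => c j * (v j i : k)) (by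
      refine Eq.trans (Finset.sum_congr rfl fun j _ => ?_) (hcon i)
      split_ifs
      · rw [map_mul, map_natCast, mul_assoc]
      · rfl)
    refine Eq.trans (Finset.sum_congr rfl fun j _ => ?_) h1
    by_cases hj : Pool.Agent.W426.SM.face v u j
    · rw [if_pos hj, if_pos ((face_iff hr v u j).2 hj), map_mul, map_natCast]
    · rw [if_neg hj, if_neg (fun h => hj ((face_iff hr v u j).1 h))]

end Pool.Agent.W67.MM
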